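import Mathlib

/-!
MP_f688e9_co, Q1: the exact set of the moduli `n` with `σ_±(ℤ_n, h) ≥ 2`, for every `h`, and the
value of `σ_±(ℤ_n, h)` for all `n` with `3 n < (h + 1) (2 h ^ 2 + 4 h + 3)`.
-/

set_option autoImplicit false

namespace Pool.Agent.Results.MP_f688e9_co.SmallModuli

open Finset

/-- `A ⊆ ℤ_n` is a `B_h` set over `ℤ`: two integer coefficient vectors on `A`, both of `ℓ¹`-norm
`h`, which give the same element of `ℤ_n` are equal. -/
def IsBh (n h : ℕ) (A : Finset (ZMod n)) : Prop :=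
  ∀ l m : ZMod n → ℤ, ∑ a ∈ A, |l a| = h → ∑ a ∈ A, |m a| = h →
    ∑ a ∈ A, (l a : ZMod n) * a = ∑ a ∈ A, (m a : ZMod n) * a → ∀ a ∈ A, l a = m a

/-- `σ_±(ℤ_n, h)`: the largest size of a `B_h` set over `ℤ` in `ℤ_n` (the empty set always
counts, with size `0`). -/
noncomputable def sigma (n h : ℕ) : ℕ :=
  sSup {k : ℕ | ∃ A : Finset (ZMod n), IsBh n h A ∧ A.card = k}

theorem IsBh.subset {n h : ℕ} {A B : Finset (ZMod n)} (hA : IsBh n h A) (hBA : B ⊆ A) :
    IsBh n h B := by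
  classical
  intro l m hl hm e a ha
  have key : ∀ f : ZMod n → ℤ, ∑ a ∈ A, |if a ∈ B then f a else 0| = ∑ a ∈ B, |f a| := by
    intro f
    rw [← Finset.sum_subset hBA (fun x _ hx => by simp [hx])]
    exact Finset.sum_congr rfl fun x hx => by simp [hx]
  have key2 : ∀ f : ZMod n → ℤ, ∑ a ∈ A, ((if a ∈ B then f a else 0 : ℤ) : ZMod n) * a =
      ∑ a ∈ B, (f a : ZMod n) * a := by
    intro f
    rw [← Finset.sum_subset hBA (fun x _ hx => by simp [hx])]
    exact Finset.sum_congr rfl fun x hx => by simp [hx]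
  have := hA (fun a => if a ∈ B then l a else 0) (fun a => if a ∈ B then m a else 0)
    ((key l).trans hl) ((key m).trans hm) ((key2 l).trans (e.trans (key2 m).symm)) a (hBA ha)
  simpa [ha] using this

theorem pair_iff {n h : ℕ} {a b : ZMod n} (hab : a ≠ b) (hA : IsBh n h {a, b}) (l1 l2 m1 m2 : ℤ)
    (hl : |l1| + |l2| = h) (hm : |m1| + |m2| = h)
    (e : (l1 : ZMod n) * a + l2 * b = m1 * a + m2 * b) : l1 = m1 ∧ l2 = m2 := by
  classical
  have := hA (fun t => if t = a then l1 else l2) (fun t => if t = a then m1 else m2)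
    (by rw [Finset.sum_pair hab]; simpa [hab.symm] using hl)
    (by rw [Finset.sum_pair hab]; simpa [hab.symm] using hm)
    (by rw [Finset.sum_pair hab, Finset.sum_pair hab]; simpa [hab.symm] using e)
  exact ⟨by simpa using this a (by simp), by simpa [hab.symm] using this b (by simp)⟩

theorem pair_uv {n h : ℕ} {a b : ZMod n} (hab : a ≠ b) (hA : IsBh n h {a, b}) (u v : ℤ)
    (hu : |u| ≤ h) (hv : |v| ≤ h) (e : (u : ZMod n) * (a + b) + v * (a - b) = 0) :
    u = 0 ∧ v = 0 := by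
  have key : ∀ u v : ℤ, 0 ≤ u → u ≤ h → |v| ≤ h →
      (u : ZMod n) * (a + b) + v * (a - b) = 0 → u = 0 ∧ v = 0 := by
    intro u v hu0 hu hv e
    rcases le_total 0 v with hv0 | hv0
    · have hv' : v ≤ h := by rwa [abs_of_nonneg hv0] at hv
      have := pair_iff hab hA u (u - h) (-v) (v - h)
        (by rw [abs_of_nonneg hu0, abs_of_nonpos (by omega)]; ring)
        (by rw [abs_of_nonpos (by omega), abs_of_nonpos (by omega)]; ring)
        (by push_cast; linear_combination e)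
      omega
    · have hv' : -v ≤ h := by rwa [abs_of_nonpos hv0] at hv
      have := pair_iff hab hA (u - h) u (-v - h) v
        (by rw [abs_of_nonpos (by omega), abs_of_nonneg hu0]; ring)
        (by rw [abs_of_nonpos (by omega), abs_of_nonpos hv0]; ring)
        (by push_cast; linear_combination e)
      omega
  rcases le_total 0 u with h0 | h0
  · exact key u v h0 (by rwa [abs_of_nonneg h0] at hu) hv e
  · have := key (-u) (-v) (by omega) (by rwa [abs_of_nonpos h0] at hu) (by rwa [abs_neg])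
      (by push_cast; linear_combination -e)
    omega

theorem box {n : ℕ} [NeZero n] (c d : ZMod n) (p q e : ℕ) (he : 0 < e) (hec : e • c = 0)
    (hed : e • d = 0) (hlt : e < p * q) :
    ∃ u v : ℤ, |u| < p ∧ |v| < q ∧ (u ≠ 0 ∨ v ≠ 0) ∧ (u : ZMod n) * c + v * d = 0 := by
  classical
  have hcard : (Finset.univ.filter fun x : ZMod n => e • x = 0).card <
      (Finset.range p ×ˢ Finset.range q).card := by
    rw [Finset.card_product, Finset.card_range, Finset.card_range]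
    exact lt_of_le_of_lt (IsAddCyclic.card_nsmul_eq_zero_le he) hlt
  obtain ⟨x, hx, y, hy, hne, hxy⟩ := Finset.exists_ne_map_eq_of_card_lt_of_maps_to hcard
    (f := fun t : ℕ × ℕ => (t.1 : ZMod n) * c + t.2 * d) (by
      intro t _
      simp only [Finset.coe_filter, Set.mem_ofPred_eq, Finset.mem_univ, true_and]
      rw [nsmul_eq_mul] at hec hed ⊢
      linear_combination (t.1 : ZMod n) * hec + (t.2 : ZMod n) * hed)
  simp only [Finset.mem_product, Finset.mem_range] at hx hy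
  refine ⟨(x.1 : ℤ) - y.1, (x.2 : ℤ) - y.2, by rw [abs_lt]; omega, by rw [abs_lt]; omega, ?_, ?_⟩
  · by_contra hcon
    push Not at hcon
    apply hne
    ext <;> omega
  · push_cast
    linear_combination hxy

theorem even_part {n : ℕ} [NeZero n] (hn : 2 ∣ n) (x : ZMod n)
    (hx : ZMod.castHom hn (ZMod 2) x = 0) : (n / 2) • x = 0 := by
  rw [ZMod.castHom_apply, ← ZMod.natCast_val, ZMod.natCast_eq_zero_iff] at hx
  obtain ⟨w, hw⟩ := hx
  have h1 : (n / 2) • x = ((n / 2 * x.val : ℕ) : ZMod n) := by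
    rw [nsmul_eq_mul]
    push_cast
    rw [ZMod.natCast_zmod_val]
  rw [h1, ZMod.natCast_eq_zero_iff, hw]
  refine ⟨w, ?_⟩
  rw [← mul_assoc, Nat.div_mul_cancel hn]

/-- The lattice part of the lower bound for the modulus. -/
theorem thr {n h : ℕ} [NeZero n] (c d : ZMod n)
    (huv : ∀ u v : ℤ, |u| ≤ h → |v| ≤ h → (u : ZMod n) * c + v * d = 0 → u = 0 ∧ v = 0)
    (hpar : ∀ hn : 2 ∣ n, ZMod.castHom hn (ZMod 2) d = ZMod.castHom hn (ZMod 2) c) :
    (h + 1) ^ 2 ≤ n ∧ (2 ∣ n → Odd h → (h + 1) * (h + 2) ≤ n) := by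
  have small : ∀ e : ℕ, 0 < e → e • c = 0 → e • d = 0 → (h + 1) ^ 2 ≤ e := by
    intro e he h1 h2
    by_contra hlt
    push Not at hlt
    obtain ⟨u, v, hu, hv, hne, e1⟩ := box c d (h + 1) (h + 1) e he h1 h2 (by nlinarith)
    push_cast at hu hv
    have := huv u v (by omega) (by omega) e1
    omega
  have hs : (h + 1) ^ 2 ≤ n := small n (NeZero.pos n) (by simp) (by simp)
  refine ⟨hs, ?_⟩
  intro hn hodd
  by_contra hlt
  push Not at hlt
  have hd := hpar hn
  by_cases hc : ZMod.castHom hn (ZMod 2) c = 0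
  · have h2 := small (n / 2) (Nat.div_pos (Nat.le_of_dvd (NeZero.pos n) hn) (by norm_num))
      (even_part hn _ hc) (even_part hn _ (hd.trans hc))
    have h3 : n / 2 * 2 = n := Nat.div_mul_cancel hn
    nlinarith
  · have hc1 : ZMod.castHom hn (ZMod 2) c = 1 := by
      have : ∀ t : ZMod 2, t ≠ 0 → t = 1 := by decide
      exact this _ hc
    have hd1 := hd.trans hc1
    have par : ∀ u v : ℤ, (u : ZMod n) * c + v * d = 0 → (2 : ℤ) ∣ u + v := by
      intro u v e
      have h1 := congrArg (ZMod.castHom hn (ZMod 2)) e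
      rw [map_add, map_mul, map_mul, map_intCast, map_intCast, hc1, hd1, map_zero, mul_one,
        mul_one] at h1
      have h2 : ((u + v : ℤ) : ZMod 2) = 0 := by push_cast; exact h1
      have := (ZMod.intCast_zmod_eq_zero_iff_dvd (u + v) 2).1 h2
      simpa using this
    obtain ⟨s, hs2⟩ : ∃ s : ℤ, (h : ℤ) + 1 = 2 * s := by
      obtain ⟨k, hk⟩ := hodd
      exact ⟨k + 1, by omega⟩
    -- first vector
    obtain ⟨V, hV, eV⟩ : ∃ V : ℤ, |V| ≤ h ∧ (((h : ℤ) + 1 : ℤ) : ZMod n) * c + V * d = 0 := by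
      obtain ⟨u, v, hu, hv, hne, e1⟩ := box c d (h + 2) (h + 1) n (NeZero.pos n) (by simp)
        (by simp) (by nlinarith)
      push_cast at hu hv
      have hu' : ¬ |u| ≤ h := by
        intro hle
        have := huv u v hle (by omega) e1
        omega
      have hu2 : |u| = h + 1 := by omega
      rcases abs_eq (by positivity : (0 : ℤ) ≤ (h : ℤ) + 1) |>.1 hu2 with h1 | h1
      · exact ⟨v, by omega, by rw [← h1]; exact e1⟩
      · refine ⟨-v, by rw [abs_neg]; omega, ?_⟩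
        rw [h1] at e1
        push_cast at e1 ⊢
        linear_combination -e1
    obtain ⟨U, hU, eU⟩ : ∃ U : ℤ, |U| ≤ h ∧ (U : ZMod n) * c + (((h : ℤ) + 1 : ℤ) : ZMod n) * d = 0 := by
      obtain ⟨u, v, hu, hv, hne, e1⟩ := box c d (h + 1) (h + 2) n (NeZero.pos n) (by simp)
        (by simp) (by nlinarith)
      push_cast at hu hv
      have hv' : ¬ |v| ≤ h := by
        intro hle
        have := huv u v (by omega) hle e1
        omega
      have hv2 : |v| = h + 1 := by omega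
      rcases abs_eq (by positivity : (0 : ℤ) ≤ (h : ℤ) + 1) |>.1 hv2 with h1 | h1
      · exact ⟨u, by omega, by rw [← h1]; exact e1⟩
      · refine ⟨-u, by rw [abs_neg]; omega, ?_⟩
        rw [h1] at e1
        push_cast at e1 ⊢
        linear_combination -e1
    have pV := par _ _ eV
    have pU := par _ _ eU
    obtain ⟨V2, hV2⟩ : ∃ V2 : ℤ, V = 2 * V2 := ⟨V / 2, by omega⟩
    obtain ⟨U2, hU2⟩ : ∃ U2 : ℤ, U = 2 * U2 := ⟨U / 2, by omega⟩
    have hspos : 1 ≤ s := by omega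
    have bV : |V2| ≤ s - 1 := by rw [abs_le] at hV ⊢; omega
    have bU : |U2| ≤ s - 1 := by rw [abs_le] at hU ⊢; omega
    have hprod : |V2 * U2| ≤ (s - 1) * (s - 1) := by
      rw [abs_mul]
      exact mul_le_mul bV bU (abs_nonneg _) (by omega)
    have hEpos : 0 < 2 * (s * s - V2 * U2) := by
      have := (abs_le.1 hprod).2
      nlinarith
    have hElt : 2 * (s * s - V2 * U2) < (2 * s) ^ 2 := by
      have := (abs_le.1 hprod).1
      nlinarith
    obtain ⟨e, he⟩ := Int.eq_ofNat_of_zero_le hEpos.le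
    have hcast : ((e : ℕ) : ZMod n) = 2 * ((s : ZMod n) * s - V2 * U2) := by
      have := congrArg (fun t : ℤ => (t : ZMod n)) he
      push_cast at this
      rw [← this]
    rw [hs2, hV2] at eV
    rw [hs2, hU2] at eU
    push_cast at eV eU
    have h1 := small e (by omega)
      (by rw [nsmul_eq_mul, hcast]; linear_combination (s : ZMod n) * eV - (V2 : ZMod n) * eU)
      (by rw [nsmul_eq_mul, hcast]; linear_combination (s : ZMod n) * eU - (U2 : ZMod n) * eV)
    have h2 : ((h : ℤ) + 1) ^ 2 ≤ (e : ℤ) := by exact_mod_cast h1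
    rw [hs2, ← he] at h2
    omega

theorem threshold {n h : ℕ} [NeZero n] {a b : ZMod n} (hab : a ≠ b) (hA : IsBh n h {a, b}) :
    (h + 1) ^ 2 ≤ n ∧ (2 ∣ n → Odd h → (h + 1) * (h + 2) ≤ n) := by
  refine thr (a + b) (a - b) (fun u v hu hv e => pair_uv hab hA u v hu hv e) ?_
  intro hn
  rw [map_sub, map_add]
  exact CharTwo.sub_eq_add _ _

theorem uv_of {h : ℕ} (l1 l2 m1 m2 : ℤ) (hl : |l1| + |l2| = h) (hm : |m1| + |m2| = h) :
    ∃ u v : ℤ, l1 - m1 = u + v ∧ l2 - m2 = u - v ∧ |u| ≤ h ∧ |v| ≤ h := by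
  refine ⟨(l1 - m1 + (l2 - m2)) / 2, (l1 - m1 - (l2 - m2)) / 2, ?_, ?_, ?_, ?_⟩ <;>
    simp only [Int.abs_eq_natAbs] at * <;> omega

theorem construct {n h r : ℕ} [NeZero n] (a b : ZMod n) (h1 : a + b = 1)
    (h2 : a - b = -(r : ZMod n)) (hr : h < r) (hn : h + r * h < n) (hrn : r < n) :
    a ≠ b ∧ IsBh n h {a, b} := by
  classical
  have hab : a ≠ b := by
    rintro rfl
    rw [sub_self] at h2
    have h3 : ((r : ℕ) : ZMod n) = 0 := by linear_combination h2
    rw [ZMod.natCast_eq_zero_iff] at h3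
    have := Nat.le_of_dvd (by omega) h3
    omega
  refine ⟨hab, ?_⟩
  intro l m hl hm e
  rw [Finset.sum_pair hab] at hl hm
  rw [Finset.sum_pair hab, Finset.sum_pair hab] at e
  obtain ⟨u, v, e1, e2, hu, hv⟩ := uv_of _ _ _ _ hl hm
  have e3 : ((u - v * r : ℤ) : ZMod n) = 0 := by
    have e1' := congrArg (fun t : ℤ => (t : ZMod n)) e1
    have e2' := congrArg (fun t : ℤ => (t : ZMod n)) e2
    push_cast at e1' e2' ⊢
    linear_combination e - a * e1' - b * e2' - (u : ZMod n) * h1 - (v : ZMod n) * h2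
  have e4 : (n : ℤ) ∣ u - v * r := (ZMod.intCast_zmod_eq_zero_iff_dvd _ n).1 e3
  have hb : |u - v * r| < n := by
    have h5 : |u - v * r| ≤ |u| + |v * r| := abs_sub _ _
    rw [abs_mul, abs_of_nonneg (by positivity : (0 : ℤ) ≤ (r : ℤ))] at h5
    have h6 : |v| * r ≤ h * r := mul_le_mul_of_nonneg_right hv (by positivity)
    have h7 : ((h + r * h : ℕ) : ℤ) < n := by exact_mod_cast hn
    push_cast at h7
    nlinarith
  have e5 : u - v * r = 0 := Int.eq_zero_of_abs_lt_dvd e4 hb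
  have hv0 : v = 0 := by
    by_contra hv0
    have h8 : 1 ≤ |v| := Int.one_le_abs hv0
    have h9 : |u| = |v| * r := by
      rw [show u = v * r by linarith, abs_mul, abs_of_nonneg (by positivity : (0 : ℤ) ≤ (r : ℤ))]
    have h10 : (h : ℤ) < r := by exact_mod_cast hr
    nlinarith
  have hu0 : u = 0 := by rw [hv0] at e5; linarith
  intro t ht
  rw [Finset.mem_insert, Finset.mem_singleton] at ht
  rcases ht with rfl | rfl
  · omega
  · omega

theorem bdd {n : ℕ} [NeZero n] (h : ℕ) :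
    BddAbove {k : ℕ | ∃ A : Finset (ZMod n), IsBh n h A ∧ A.card = k} := by
  refine ⟨n, ?_⟩
  rintro k ⟨A, _, rfl⟩
  have := Finset.card_le_univ A
  rwa [ZMod.card] at this

theorem le_sigma_iff {n : ℕ} [NeZero n] (h k : ℕ) (_hh : 1 ≤ h) :
    k ≤ sigma n h ↔ ∃ A : Finset (ZMod n), IsBh n h A ∧ A.card = k := by
  constructor
  · intro hk
    have hne : {k : ℕ | ∃ A : Finset (ZMod n), IsBh n h A ∧ A.card = k}.Nonempty := by
      refine ⟨0, ∅, ?_, by simp⟩
      intro l m hl hm e a ha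
      simp at ha
    obtain ⟨A, hA, hc⟩ := Nat.sSup_mem hne (bdd h)
    obtain ⟨B, hB, hBc⟩ := Finset.exists_subset_card_eq (show k ≤ A.card by rw [hc]; exact hk)
    exact ⟨B, hA.subset hB, hBc⟩
  · intro hk
    exact le_csSup (bdd h) hk

theorem two_iff {n : ℕ} [NeZero n] (h : ℕ) (hh : 1 ≤ h) :
    2 ≤ sigma n h ↔
      ((h + 1) ^ 2 ≤ n ∧ (Odd n ∨ Even h)) ∨ (h + 1) * (h + 2) ≤ n := by
  classical
  rw [le_sigma_iff h 2 hh]
  constructor
  · rintro ⟨A, hA, hc⟩
    obtain ⟨a, b, hab, rfl⟩ := Finset.card_eq_two.1 hc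
    obtain ⟨h1, h2⟩ := threshold hab hA
    rcases Nat.even_or_odd n with hn | hn
    · rcases Nat.even_or_odd h with hh | hh
      · exact Or.inl ⟨h1, Or.inr hh⟩
      · exact Or.inr (h2 hn.two_dvd hh)
    · exact Or.inl ⟨h1, Or.inl hn⟩
  · have fin : ∀ r : ℕ, ∀ a b : ZMod n, a + b = 1 → a - b = -(r : ZMod n) → h < r →
        h + r * h < n → ∃ A : Finset (ZMod n), IsBh n h A ∧ A.card = 2 := by
      intro r a b h1 h2 hr hn
      obtain ⟨hab, hA⟩ := construct a b h1 h2 hr hn (by nlinarith)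
      exact ⟨{a, b}, hA, Finset.card_pair hab⟩
    -- `r` odd
    have oddr : ∀ k : ℕ, h < 2 * k + 1 → h + (2 * k + 1) * h < n →
        ∃ A : Finset (ZMod n), IsBh n h A ∧ A.card = 2 := by
      intro k hk hn
      refine fin (2 * k + 1) (-(k : ZMod n)) ((k : ZMod n) + 1) (by ring) ?_ hk hn
      push_cast
      ring
    rintro (⟨h1, h2 | h2⟩ | h1)
    · -- `n` odd
      obtain ⟨k, hk⟩ := h2
      have hinv : (2 : ZMod n) * ((k : ZMod n) + 1) = 1 := by
        have : ((2 * k + 1 : ℕ) : ZMod n) = 0 := by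
          rw [ZMod.natCast_eq_zero_iff, ← hk]
        push_cast at this
        linear_combination this
      refine fin (h + 1) (((k : ZMod n) + 1) * (1 - (h + 1))) (((k : ZMod n) + 1) * (1 + (h + 1)))
        ?_ ?_ (by omega) (by nlinarith)
      · linear_combination hinv
      · push_cast
        linear_combination -((h : ZMod n) + 1) * hinv
    · obtain ⟨k, hk⟩ := h2
      exact oddr k (by omega) (by nlinarith)
    · rcases Nat.even_or_odd h with hh2 | hh2
      · obtain ⟨k, hk⟩ := hh2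
        exact oddr k (by omega) (by nlinarith)
      · obtain ⟨k, hk⟩ := hh2
        exact oddr (k + 1) (by omega) (by nlinarith)

theorem one_iff {n : ℕ} [NeZero n] (h : ℕ) (hh : 1 ≤ h) : 1 ≤ sigma n h ↔ ¬ n ∣ 2 * h := by
  classical
  rw [le_sigma_iff h 1 hh]
  constructor
  · rintro ⟨A, hA, hc⟩ hdvd
    obtain ⟨a, rfl⟩ := Finset.card_eq_one.1 hc
    have h2 : ((2 * h : ℕ) : ZMod n) = 0 := by rwa [ZMod.natCast_eq_zero_iff]
    push_cast at h2
    have := hA (fun _ => (h : ℤ)) (fun _ => -(h : ℤ)) (by simp) (by simp) (by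
      simp only [Finset.sum_singleton]
      push_cast
      linear_combination a * h2) a (by simp)
    omega
  · intro hnd
    refine ⟨{1}, ?_, by simp⟩
    intro l m hl hm e t ht
    rw [Finset.sum_singleton] at hl hm
    rw [Finset.sum_singleton, Finset.sum_singleton, mul_one, mul_one] at e
    rw [Finset.mem_singleton] at ht
    subst ht
    by_contra hne
    apply hnd
    have e2 : ((l 1 - m 1 : ℤ) : ZMod n) = 0 := by push_cast; rw [e, sub_self]
    have e3 : (n : ℤ) ∣ l 1 - m 1 := (ZMod.intCast_zmod_eq_zero_iff_dvd _ n).1 e2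
    have e4 : l 1 - m 1 = 2 * h ∨ l 1 - m 1 = -(2 * h) := by
      simp only [Int.abs_eq_natAbs] at hl hm
      omega
    rcases e4 with e4 | e4
    · rw [e4] at e3
      exact_mod_cast e3
    · rw [e4, dvd_neg] at e3
      exact_mod_cast e3

theorem triple {n h : ℕ} {a b c : ZMod n} (hab : a ≠ b) (hac : a ≠ c) (hbc : b ≠ c)
    (hA : IsBh n h {a, b, c}) (l1 l2 l3 m1 m2 m3 : ℤ)
    (hl : |l1| + |l2| + |l3| = h) (hm : |m1| + |m2| + |m3| = h)
    (e : (l1 : ZMod n) * a + l2 * b + l3 * c = m1 * a + m2 * b + m3 * c) :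
    l1 = m1 ∧ l2 = m2 ∧ l3 = m3 := by
  classical
  have hs : ∀ {M : Type} [AddCommMonoid M] (f : ZMod n → M),
      ∑ t ∈ ({a, b, c} : Finset (ZMod n)), f t = f a + (f b + f c) := by
    intro M _ f
    rw [Finset.sum_insert (by simp [hab, hac]), Finset.sum_pair hbc]
  have := hA (fun t => if t = a then l1 else if t = b then l2 else l3)
    (fun t => if t = a then m1 else if t = b then m2 else m3)
    (by rw [hs]; simpa [hab.symm, hac.symm, hbc.symm, add_assoc] using hl)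
    (by rw [hs]; simpa [hab.symm, hac.symm, hbc.symm, add_assoc] using hm)
    (by rw [hs, hs]; simpa [hab.symm, hac.symm, hbc.symm, add_assoc] using e)
  exact ⟨by simpa using this a (by simp), by simpa [hab.symm] using this b (by simp),
    by simpa [hac.symm, hbc.symm] using this c (by simp)⟩

/-- An integer vector in dimension 3 of even norm at most `2 h` is the difference of two vectors
of norm `h`. -/
theorem split3 (h : ℕ) (X Y Z : ℤ) (hle : |X| + |Y| + |Z| ≤ 2 * h) (hev : (2 : ℤ) ∣ X + Y + Z) :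
    ∃ l1 l2 l3 m1 m2 m3 : ℤ, |l1| + |l2| + |l3| = h ∧ |m1| + |m2| + |m3| = h ∧
      l1 - m1 = X ∧ l2 - m2 = Y ∧ l3 - m3 = Z := by
  simp only [Int.abs_eq_natAbs] at *
  obtain ⟨j, hj⟩ : ∃ j : ℤ, (X.natAbs : ℤ) + Y.natAbs + Z.natAbs = 2 * j :=
    ⟨((X.natAbs : ℤ) + Y.natAbs + Z.natAbs) / 2, by omega⟩
  obtain ⟨t, ht⟩ : ∃ t : ℤ, t = h - j := ⟨_, rfl⟩
  -- signs
  have sg : ∀ x k : ℤ, ∃ y : ℤ, (0 ≤ x ∧ y = k) ∨ (x < 0 ∧ y = -k) := by
    intro x k
    rcases le_or_gt 0 x with hx | hx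
    · exact ⟨k, Or.inl ⟨hx, rfl⟩⟩
    · exact ⟨-k, Or.inr ⟨hx, rfl⟩⟩
  by_cases c1 : j ≤ X.natAbs
  · obtain ⟨y1, hy1⟩ := sg X j
    obtain ⟨w, hw⟩ := sg Z t
    exact ⟨X - y1, Y, Z + w, -y1, 0, w, by omega, by omega, by omega, by omega, by omega⟩
  · by_cases c2 : j ≤ (X.natAbs : ℤ) + Y.natAbs
    · obtain ⟨y2, hy2⟩ := sg Y (j - X.natAbs)
      obtain ⟨w, hw⟩ := sg Z t
      exact ⟨0, Y - y2, Z + w, -X, -y2, w, by omega, by omega, by omega, by omega, by omega⟩
    · obtain ⟨y3, hy3⟩ := sg Z j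
      obtain ⟨w, hw⟩ := sg X t
      exact ⟨X + w, Y, Z - y3, w, 0, -y3, by omega, by omega, by omega, by omega, by omega⟩

/-- The index set of the same-parity points of the `ℓ¹`-ball of radius `h` in dimension 3. -/
def T (h : ℕ) : Finset ((Σ _ : ℕ, ℕ × ℕ) ⊕ (Σ _ : ℕ, ℕ × ℕ)) :=
  ((Finset.range (h + 1)).sigma fun k => Finset.range (k + 1) ×ˢ Finset.range (k + 1)).disjSum
    ((Finset.range h).sigma fun k => Finset.range (k + 1) ×ˢ Finset.range (k + 1))

theorem sum_sq (m : ℕ) : 6 * ∑ k ∈ Finset.range m, (k + 1) * (k + 1) = m * (m + 1) * (2 * m + 1) := by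
  induction m with
  | zero => simp
  | succ m ih =>
    rw [Finset.sum_range_succ, mul_add, ih]
    ring

theorem card_T (h : ℕ) : 3 * (T h).card = (h + 1) * (2 * h ^ 2 + 4 * h + 3) := by
  have h1 : (T h).card = (∑ k ∈ Finset.range (h + 1), (k + 1) * (k + 1)) +
      ∑ k ∈ Finset.range h, (k + 1) * (k + 1) := by
    rw [T, Finset.card_disjSum, Finset.card_sigma, Finset.card_sigma]
    simp [Finset.card_product]
  have h2 := sum_sq (h + 1)
  have h3 := sum_sq h
  rw [h1]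
  nlinarith

/-- The point of `ℤ³` with index `t`. -/
def P (h : ℕ) : ((Σ _ : ℕ, ℕ × ℕ) ⊕ (Σ _ : ℕ, ℕ × ℕ)) → ℤ × ℤ × ℤ
  | Sum.inl ⟨k, i, j⟩ => ((i : ℤ) + j - k, (i : ℤ) - j, (h : ℤ) - k)
  | Sum.inr ⟨k, i, j⟩ => ((i : ℤ) + j - k, (i : ℤ) - j, (k : ℤ) - h)

theorem P_norm {h : ℕ} {t : (Σ _ : ℕ, ℕ × ℕ) ⊕ (Σ _ : ℕ, ℕ × ℕ)} (ht : t ∈ T h) :
    ((P h t).1.natAbs : ℤ) + (P h t).2.1.natAbs + (P h t).2.2.natAbs ≤ h ∧
      (2 : ℤ) ∣ (P h t).1 + (P h t).2.1 + (P h t).2.2 - h := by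
  rcases t with ⟨k, i, j⟩ | ⟨k, i, j⟩
  · simp only [T, Finset.inl_mem_disjSum, Finset.mem_sigma, Finset.mem_product,
      Finset.mem_range] at ht
    simp only [P]
    omega
  · simp only [T, Finset.inr_mem_disjSum, Finset.mem_sigma, Finset.mem_product,
      Finset.mem_range] at ht
    simp only [P]
    omega

theorem P_inj {h : ℕ} {t s : (Σ _ : ℕ, ℕ × ℕ) ⊕ (Σ _ : ℕ, ℕ × ℕ)} (ht : t ∈ T h) (hs : s ∈ T h)
    (e1 : (P h t).1 = (P h s).1) (e2 : (P h t).2.1 = (P h s).2.1)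
    (e3 : (P h t).2.2 = (P h s).2.2) : t = s := by
  rcases t with ⟨k, i, j⟩ | ⟨k, i, j⟩ <;> rcases s with ⟨k', i', j'⟩ | ⟨k', i', j'⟩ <;>
    simp only [T, Finset.inl_mem_disjSum, Finset.inr_mem_disjSum, Finset.mem_sigma,
      Finset.mem_product, Finset.mem_range] at ht hs <;>
    simp only [P] at e1 e2 e3
  · have hk : k = k' := by omega
    have hi : i = i' := by omega
    have hj : j = j' := by omega
    subst hk hi hj
    rfl
  · omega
  · omega
  · have hk : k = k' := by omega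
    have hi : i = i' := by omega
    have hj : j = j' := by omega
    subst hk hi hj
    rfl

theorem three_bound {n : ℕ} [NeZero n] (h : ℕ) (hh : 1 ≤ h) (h3 : 3 ≤ sigma n h) :
    (h + 1) * (2 * h ^ 2 + 4 * h + 3) ≤ 3 * n := by
  classical
  rw [le_sigma_iff h 3 hh] at h3
  obtain ⟨A, hA, hc⟩ := h3
  obtain ⟨a, b, c, hab, hac, hbc, rfl⟩ := Finset.card_eq_three.1 hc
  by_contra hlt
  push Not at hlt
  rw [← card_T] at hlt
  have hcard : (Finset.univ : Finset (ZMod n)).card < (T h).card := by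
    rw [Finset.card_univ, ZMod.card]
    omega
  obtain ⟨t, ht, s, hs, hne, hts⟩ := Finset.exists_ne_map_eq_of_card_lt_of_maps_to hcard
    (f := fun t => ((P h t).1 : ZMod n) * a + ((P h t).2.1 : ZMod n) * b +
      ((P h t).2.2 : ZMod n) * c) (by intro t _; simp)
  obtain ⟨n1, p1⟩ := P_norm ht
  obtain ⟨n2, p2⟩ := P_norm hs
  obtain ⟨l1, l2, l3, m1, m2, m3, hl, hm, e1, e2, e3⟩ := split3 h
    ((P h t).1 - (P h s).1) ((P h t).2.1 - (P h s).2.1) ((P h t).2.2 - (P h s).2.2)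
    (by simp only [Int.abs_eq_natAbs]; omega) (by omega)
  have := triple hab hac hbc hA l1 l2 l3 m1 m2 m3 hl hm (by
    have e1' := congrArg (fun t : ℤ => (t : ZMod n)) e1
    have e2' := congrArg (fun t : ℤ => (t : ZMod n)) e2
    have e3' := congrArg (fun t : ℤ => (t : ZMod n)) e3
    push_cast at e1' e2' e3'
    linear_combination a * e1' + b * e2' + c * e3' + hts)
  apply hne
  exact P_inj ht hs (by omega) (by omega) (by omega)

theorem result (n h : ℕ) (hn : 1 ≤ n) (hh : 1 ≤ h) :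
    (2 ≤ sigma n h ↔
      ((h + 1) ^ 2 ≤ n ∧ (Odd n ∨ Even h)) ∨ (h + 1) * (h + 2) ≤ n) ∧
    (3 ≤ sigma n h → (h + 1) * (2 * h ^ 2 + 4 * h + 3) ≤ 3 * n) ∧
    (3 * n < (h + 1) * (2 * h ^ 2 + 4 * h + 3) →
      (n ∣ 2 * h → sigma n h = 0) ∧
      (¬ n ∣ 2 * h → ¬ (((h + 1) ^ 2 ≤ n ∧ (Odd n ∨ Even h)) ∨ (h + 1) * (h + 2) ≤ n) →
        sigma n h = 1) ∧
      ((((h + 1) ^ 2 ≤ n ∧ (Odd n ∨ Even h)) ∨ (h + 1) * (h + 2) ≤ n) → sigma n h = 2)) := by
  have : NeZero n := ⟨by omega⟩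
  have h1 := one_iff (n := n) h hh
  have h2 := two_iff (n := n) h hh
  have h3 := three_bound (n := n) h hh
  refine ⟨h2, h3, ?_⟩
  intro hlt
  have h4 : ¬ 3 ≤ sigma n h := fun hc => by
    have := h3 hc
    omega
  refine ⟨fun hd => ?_, fun hnd hc => ?_, fun hc => ?_⟩
  · have : ¬ 1 ≤ sigma n h := fun h5 => (h1.1 h5) hd
    omega
  · have h5 : 1 ≤ sigma n h := h1.2 hnd
    have h6 : ¬ 2 ≤ sigma n h := fun h7 => hc (h2.1 h7)
    omega
  · have h5 : 2 ≤ sigma n h := h2.2 hc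
    omega

end Pool.Agent.Results.MP_f688e9_co.SmallModuli
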