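import Mathlib
import Pool.Agent.Results.MP_f688e9_co.SmallModuli

/-!
MP_f688e9_co, Q1: a `B_h` set over `ℤ` of size `m ≥ 2` in `ℤ_n` needs `2 ^ m * (h choose m) ≤ 2 n`,
and `σ_±(ℤ_n, h) = m` for all `n` with `(2 h) ^ m < n` and `2 n < 2 ^ (m + 1) (h choose (m + 1))`.
-/

set_option autoImplicit false

namespace Pool.Agent.Results.MP_f688e9_co.AllSizes

open Finset Pool.Agent.Results.MP_f688e9_co.SmallModuli

theorem exists_part {α : Type} [DecidableEq α] (d : α → ℤ) (B : Finset α) :
    ∀ j : ℤ, 0 ≤ j → j ≤ ∑ a ∈ B, |d a| →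
      ∃ q : α → ℤ, (∀ a ∈ B, |q a| + |d a - q a| = |d a|) ∧ ∑ a ∈ B, |q a| = j := by
  induction B using Finset.induction_on with
  | empty =>
    intro j h0 h1
    rw [Finset.sum_empty] at h1
    exact ⟨fun _ => 0, by simp, by simp; omega⟩
  | insert b B hb ih =>
    intro j h0 h1
    rw [Finset.sum_insert hb] at h1
    by_cases hj : j ≤ ∑ a ∈ B, |d a|
    · obtain ⟨q, hq, hs⟩ := ih j h0 hj
      refine ⟨fun a => if a = b then 0 else q a, ?_, ?_⟩
      · intro a ha
        by_cases hab : a = b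
        · simp [hab]
        · simp only [hab, if_false]
          exact hq a ((Finset.mem_insert.1 ha).resolve_left hab)
      · rw [Finset.sum_insert hb]
        simp only [if_true, abs_zero, zero_add]
        rw [← hs]
        refine Finset.sum_congr rfl fun a ha => ?_
        have : a ≠ b := fun h => hb (h ▸ ha)
        simp [this]
    · push Not at hj
      obtain ⟨y, hy1, hy2⟩ : ∃ y : ℤ, |y| = j - ∑ a ∈ B, |d a| ∧ |y| + |d b - y| = |d b| := by
        rcases le_total 0 (d b) with h2 | h2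
        · refine ⟨j - ∑ a ∈ B, |d a|, abs_of_nonneg (by omega), ?_⟩
          rw [abs_of_nonneg h2] at h1 ⊢
          rw [abs_of_nonneg (by omega), abs_of_nonneg (by omega)]
          ring
        · refine ⟨-(j - ∑ a ∈ B, |d a|), ?_, ?_⟩
          · rw [abs_neg, abs_of_nonneg (by omega)]
          rw [abs_of_nonpos h2] at h1 ⊢
          rw [abs_of_nonpos (by omega), abs_of_nonpos (by omega)]
          ring
      refine ⟨fun a => if a = b then y else d a, ?_, ?_⟩
      · intro a ha
        by_cases hab : a = b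
        · subst hab
          simpa using hy2
        · simp [hab]
      · rw [Finset.sum_insert hb]
        simp only [if_true]
        have : ∑ a ∈ B, |if a = b then y else d a| = ∑ a ∈ B, |d a| := by
          refine Finset.sum_congr rfl fun a ha => ?_
          have : a ≠ b := fun h => hb (h ▸ ha)
          simp [this]
        rw [this, hy1]
        ring

/-- An integer vector on a set with at least two elements, of even norm at most `2 h`, is the
difference of two vectors of norm `h`. -/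
theorem split {α : Type} [DecidableEq α] (A : Finset α) (hA : 2 ≤ A.card) (h : ℕ) (d : α → ℤ)
    (hle : ∑ a ∈ A, |d a| ≤ 2 * h) (hev : (2 : ℤ) ∣ ∑ a ∈ A, |d a|) :
    ∃ l m : α → ℤ, ∑ a ∈ A, |l a| = h ∧ ∑ a ∈ A, |m a| = h ∧ ∀ a ∈ A, l a - m a = d a := by
  obtain ⟨j, hj⟩ := hev
  have hj0 : 0 ≤ j := by
    have : 0 ≤ ∑ a ∈ A, |d a| := Finset.sum_nonneg fun a _ => abs_nonneg _
    omega
  obtain ⟨b, hb, hbj⟩ : ∃ b ∈ A, |d b| ≤ j := by
    by_contra hcon
    push Not at hcon
    have h1 : ∑ a ∈ A, (j + 1) ≤ ∑ a ∈ A, |d a| :=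
      Finset.sum_le_sum fun a ha => by have := hcon a ha; omega
    rw [Finset.sum_const, nsmul_eq_mul, hj] at h1
    have h2 : (2 : ℤ) ≤ (A.card : ℤ) := by exact_mod_cast hA
    nlinarith
  have hsplit : ∀ f : α → ℤ, ∑ a ∈ A, f a = f b + ∑ a ∈ A.erase b, f a := fun f =>
    (Finset.add_sum_erase A f hb).symm
  have hB : ∑ a ∈ A.erase b, |d a| = 2 * j - |d b| := by
    have := hsplit (fun a => |d a|)
    omega
  obtain ⟨q, hq, hqs⟩ := exists_part d (A.erase b) j hj0 (by omega)
  obtain ⟨w, hw1, hw2⟩ : ∃ w : ℤ, |w| = h - j ∧ |d b + w| = |d b| + (h - j) := by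
    rcases le_total 0 (d b) with h2 | h2
    · refine ⟨h - j, abs_of_nonneg (by omega), ?_⟩
      rw [abs_of_nonneg h2, abs_of_nonneg (by omega)]
    · refine ⟨-(h - j), ?_, ?_⟩
      · rw [abs_neg, abs_of_nonneg (by omega)]
      · rw [abs_of_nonpos h2, abs_of_nonpos (by omega)]
        ring
  have hne : ∀ a ∈ A.erase b, a ≠ b := fun a ha => Finset.ne_of_mem_erase ha
  refine ⟨fun a => if a = b then d b + w else d a - q a, fun a => if a = b then w else -q a,
    ?_, ?_, ?_⟩
  · rw [hsplit]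
    have h1 : ∑ a ∈ A.erase b, |if a = b then d b + w else d a - q a| =
        ∑ a ∈ A.erase b, (|d a| - |q a|) := by
      refine Finset.sum_congr rfl fun a ha => ?_
      rw [if_neg (hne a ha)]
      have := hq a ha
      omega
    rw [h1, Finset.sum_sub_distrib, hqs, hB]
    simp only [if_true]
    omega
  · rw [hsplit]
    have h1 : ∑ a ∈ A.erase b, |if a = b then w else -q a| = ∑ a ∈ A.erase b, |q a| := by
      refine Finset.sum_congr rfl fun a ha => ?_
      rw [if_neg (hne a ha), abs_neg]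
    rw [h1, hqs]
    simp only [if_true]
    omega
  · intro a ha
    by_cases hab : a = b
    · subst hab
      simp
    · simp [hab]

/-- The index set of the lattice points. -/
noncomputable def Q {n : ℕ} (h : ℕ) (A : Finset (ZMod n)) :
    Finset ((Option (ZMod n) →₀ ℕ) × Finset (ZMod n)) :=
  by
    classical
    exact (Finset.finsuppAntidiag (Finset.insertNone A) (h - A.card)) ×ˢ A.powerset

theorem card_Q {n h : ℕ} (A : Finset (ZMod n)) (hA : A.card ≤ h) :
    (Q h A).card = 2 ^ A.card * h.choose A.card := by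
  classical
  have h1 : (Q h A).card = ((Finset.finsuppAntidiag (Finset.insertNone A) (h - A.card)) ×ˢ
      A.powerset).card := by
    unfold Q
    congr!
  rw [h1, Finset.card_product, Finset.card_finsuppAntidiag_nat_eq_choose, Finset.card_powerset,
    Finset.card_insertNone, mul_comm]
  congr 1
  rw [show A.card + 1 + (h - A.card) - 1 = h by omega]
  exact Nat.choose_symm hA

/-- The lattice point of an index. -/
noncomputable def pt {n : ℕ} (t : (Option (ZMod n) →₀ ℕ) × Finset (ZMod n)) (a : ZMod n) : ℤ :=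
  by
    classical
    exact if a ∈ t.2 then -((t.1 (some a) : ℤ) + 1) else (t.1 (some a) : ℤ) + 1

theorem pt_norm {n h : ℕ} (A : Finset (ZMod n)) (hA : A.card ≤ h)
    {t : (Option (ZMod n) →₀ ℕ) × Finset (ZMod n)} (ht : t ∈ Q h A) :
    ∑ a ∈ A, |pt t a| ≤ h := by
  classical
  have ht' : t.1 ∈ Finset.finsuppAntidiag (Finset.insertNone A) (h - A.card) := by
    unfold Q at ht
    exact (Finset.mem_product.1 (by convert ht)).1
  rw [Finset.mem_finsuppAntidiag] at ht'
  have h1 := ht'.1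
  rw [Finset.sum_insertNone] at h1
  have h2 : ∀ a ∈ A, |pt t a| = (t.1 (some a) : ℤ) + 1 := by
    intro a _
    unfold pt
    split_ifs
    · rw [abs_neg, abs_of_nonneg (by positivity)]
    · rw [abs_of_nonneg (by positivity)]
  rw [Finset.sum_congr rfl h2, Finset.sum_add_distrib]
  have h3 : ((∑ a ∈ A, t.1 (some a) : ℕ) : ℤ) = ∑ a ∈ A, (t.1 (some a) : ℤ) := by push_cast; rfl
  rw [← h3]
  simp only [Finset.sum_const, nsmul_eq_mul, mul_one]
  omega

theorem pt_inj {n h : ℕ} (A : Finset (ZMod n))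
    {t s : (Option (ZMod n) →₀ ℕ) × Finset (ZMod n)} (ht : t ∈ Q h A) (hs : s ∈ Q h A)
    (e : ∀ a ∈ A, pt t a = pt s a) : t = s := by
  classical
  have ht' : t.1 ∈ Finset.finsuppAntidiag (Finset.insertNone A) (h - A.card) ∧
      t.2 ∈ A.powerset := by
    unfold Q at ht
    exact Finset.mem_product.1 (by convert ht)
  have hs' : s.1 ∈ Finset.finsuppAntidiag (Finset.insertNone A) (h - A.card) ∧
      s.2 ∈ A.powerset := by
    unfold Q at hs
    exact Finset.mem_product.1 (by convert hs)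
  rw [Finset.mem_finsuppAntidiag, Finset.mem_powerset] at ht' hs'
  obtain ⟨⟨t1, t2⟩, t3⟩ := ht'
  obtain ⟨⟨s1, s2⟩, s3⟩ := hs'
  rw [Finset.sum_insertNone] at t1 s1
  have key : ∀ a ∈ A, t.1 (some a) = s.1 (some a) ∧ (a ∈ t.2 ↔ a ∈ s.2) := by
    intro a ha
    have h1 := e a ha
    unfold pt at h1
    by_cases c1 : a ∈ t.2 <;> by_cases c2 : a ∈ s.2 <;> simp only [c1, c2, if_true, if_false] at h1
    · exact ⟨by omega, by simp [c1, c2]⟩
    · omega
    · omega
    · exact ⟨by omega, by simp [c1, c2]⟩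
  have hsum : ∑ a ∈ A, t.1 (some a) = ∑ a ∈ A, s.1 (some a) :=
    Finset.sum_congr rfl fun a ha => (key a ha).1
  refine Prod.ext ?_ ?_
  · ext i
    rcases i with _ | a
    · omega
    · by_cases ha : a ∈ A
      · exact (key a ha).1
      · have h1 : t.1 (some a) = 0 := by
          by_contra hne
          have := t2 (Finsupp.mem_support_iff.2 hne)
          rw [Finset.some_mem_insertNone] at this
          exact ha this
        have h2 : s.1 (some a) = 0 := by
          by_contra hne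
          have := s2 (Finsupp.mem_support_iff.2 hne)
          rw [Finset.some_mem_insertNone] at this
          exact ha this
        rw [h1, h2]
  · ext a
    by_cases ha : a ∈ A
    · exact (key a ha).2
    · exact ⟨fun h => absurd (t3 h) ha, fun h => absurd (s3 h) ha⟩

theorem abs_parity {α : Type} (A : Finset α) (d : α → ℤ) (hd : (2 : ℤ) ∣ ∑ a ∈ A, d a) :
    (2 : ℤ) ∣ ∑ a ∈ A, |d a| := by
  have h1 : (2 : ℤ) ∣ ∑ a ∈ A, (|d a| - d a) := by
    refine Finset.dvd_sum fun a _ => ?_
    rcases le_total 0 (d a) with h | h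
    · rw [abs_of_nonneg h, sub_self]
      exact dvd_zero _
    · rw [abs_of_nonpos h]
      exact ⟨-d a, by ring⟩
  rw [Finset.sum_sub_distrib] at h1
  omega

/-- The bound for the modulus. -/
theorem size_bound {n h : ℕ} [NeZero n] (A : Finset (ZMod n)) (hA2 : 2 ≤ A.card)
    (hA : IsBh n h A) : 2 ^ A.card * h.choose A.card ≤ 2 * n := by
  classical
  rcases lt_or_ge h A.card with hlt | hge
  · rw [Nat.choose_eq_zero_of_lt hlt]
    omega
  by_contra hcon
  push Not at hcon
  rw [← card_Q A hge] at hcon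
  have hcard : (Finset.univ : Finset (ZMod n × ZMod 2)).card < (Q h A).card := by
    rw [Finset.card_univ, Fintype.card_prod, ZMod.card, ZMod.card]
    omega
  obtain ⟨t, ht, s, hs, hne, hts⟩ := Finset.exists_ne_map_eq_of_card_lt_of_maps_to hcard
    (f := fun t => ((∑ a ∈ A, (pt t a : ZMod n) * a, ((∑ a ∈ A, pt t a : ℤ) : ZMod 2)) :
      ZMod n × ZMod 2)) (by intro t _; simp)
  rw [Prod.mk.injEq] at hts
  obtain ⟨e1, e2⟩ := hts
  have e3 : (2 : ℤ) ∣ ∑ a ∈ A, (pt t a - pt s a) := by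
    have h1 : (((∑ a ∈ A, pt t a) - (∑ a ∈ A, pt s a) : ℤ) : ZMod 2) = 0 := by
      rw [Int.cast_sub, e2, sub_self]
    have := (ZMod.intCast_zmod_eq_zero_iff_dvd _ 2).1 h1
    rw [Finset.sum_sub_distrib]
    simpa using this
  have e4 : ∑ a ∈ A, |pt t a - pt s a| ≤ 2 * h := by
    have h1 := pt_norm A hge ht
    have h2 := pt_norm A hge hs
    have h3 : ∑ a ∈ A, |pt t a - pt s a| ≤ ∑ a ∈ A, (|pt t a| + |pt s a|) :=
      Finset.sum_le_sum fun a _ => abs_sub _ _
    rw [Finset.sum_add_distrib] at h3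
    omega
  obtain ⟨l, m, hl, hm, hlm⟩ := split A hA2 h (fun a => pt t a - pt s a) e4 (abs_parity A _ e3)
  have h5 := hA l m hl hm (by
    rw [← sub_eq_zero, ← Finset.sum_sub_distrib]
    have h6 : ∑ a ∈ A, ((l a : ZMod n) * a - (m a : ZMod n) * a) =
        ∑ a ∈ A, ((pt t a : ZMod n) * a - (pt s a : ZMod n) * a) := by
      refine Finset.sum_congr rfl fun a ha => ?_
      have := congrArg (fun x : ℤ => (x : ZMod n)) (hlm a ha)
      push_cast at this
      linear_combination a * this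
    rw [h6, Finset.sum_sub_distrib, e1, sub_self])
  apply hne
  refine pt_inj A ht hs fun a ha => ?_
  have h7 := hlm a ha
  have h8 := h5 a ha
  omega

/-- Uniqueness of weighted digits. -/
theorem digits (R h : ℕ) (hR : 1 ≤ R) (hh : 1 ≤ h) (k : ℕ) : ∀ y M : ℕ → ℤ,
    (∀ i, 0 ≤ M i) → (∀ i, 2 * (h : ℤ) * |y i| ≤ R * M i) →
    ∑ i ∈ Finset.range k, M i ≤ 2 * h →
    ∑ i ∈ Finset.range k, y i * (R : ℤ) ^ i = 0 → ∀ i < k, y i = 0 := by
  induction k with
  | zero =>
    intro y M _ _ _ _ i hi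
    omega
  | succ k ih =>
    intro y M hM hy hs e
    rw [Finset.sum_range_succ'] at hs e
    have hR' : (1 : ℤ) ≤ R := by exact_mod_cast hR
    have hh' : (1 : ℤ) ≤ h := by exact_mod_cast hh
    have h1 : ∑ i ∈ Finset.range k, y (i + 1) * (R : ℤ) ^ (i + 1) =
        R * ∑ i ∈ Finset.range k, y (i + 1) * (R : ℤ) ^ i := by
      rw [Finset.mul_sum]
      exact Finset.sum_congr rfl fun i _ => by ring
    rw [h1, pow_zero, mul_one] at e
    have hdvd : (R : ℤ) ∣ y 0 := ⟨-∑ i ∈ Finset.range k, y (i + 1) * (R : ℤ) ^ i, by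
      linear_combination e⟩
    have hnn : 0 ≤ ∑ i ∈ Finset.range k, M (i + 1) := Finset.sum_nonneg fun i _ => hM _
    have hy0 : y 0 = 0 := by
      by_contra hne
      have h2 : (R : ℤ) ≤ |y 0| := Int.le_of_dvd (abs_pos.2 hne) ((dvd_abs _ _).2 hdvd)
      have h2' : 2 * (h : ℤ) ≤ M 0 := by
        have h3 := hy 0
        have h4 : 2 * (h : ℤ) * R ≤ R * M 0 :=
          (mul_le_mul_of_nonneg_left h2 (by positivity)).trans h3
        have h5 : (R : ℤ) * (2 * h) ≤ R * M 0 := by linarith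
        exact le_of_mul_le_mul_left h5 (by omega)
      have h3 : ∑ i ∈ Finset.range k, M (i + 1) = 0 := by omega
      have h4 : ∀ i ∈ Finset.range k, y (i + 1) = 0 := by
        intro i hi
        have h5 := (Finset.sum_eq_zero_iff_of_nonneg fun i _ => hM (i + 1)).1 h3 i hi
        have h6 := hy (i + 1)
        rw [h5, mul_zero] at h6
        have h7 := abs_nonneg (y (i + 1))
        have h8 : |y (i + 1)| = 0 := by nlinarith
        exact abs_eq_zero.1 h8
      have h5 : ∑ i ∈ Finset.range k, y (i + 1) * (R : ℤ) ^ i = 0 :=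
        Finset.sum_eq_zero fun i hi => by rw [h4 i hi, zero_mul]
      rw [h5] at e
      omega
    have h6 : ∑ i ∈ Finset.range k, y (i + 1) * (R : ℤ) ^ i = 0 := by
      rw [hy0, add_zero] at e
      rcases mul_eq_zero.1 e with h | h
      · omega
      · exact h
    have h7 := ih (fun i => y (i + 1)) (fun i => M (i + 1)) (fun i => hM _) (fun i => hy _) (by
      have := hM 0
      omega) h6
    intro i hi
    rcases i with _ | i
    · exact hy0
    · exact h7 i (by omega)

/-- A family of integers without a short even relation modulo `n` gives a `B_h` set. -/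
theorem of_family {n h : ℕ} [NeZero n] (hh : 1 ≤ h) {ι : Type} [Fintype ι] [DecidableEq ι]
    (a : ι → ℤ)
    (ha : ∀ x : ι → ℤ, ∑ i, |x i| ≤ 2 * h → (2 : ℤ) ∣ ∑ i, x i →
      (n : ℤ) ∣ ∑ i, x i * a i → ∀ i, x i = 0) :
    ∃ A : Finset (ZMod n), IsBh n h A ∧ A.card = Fintype.card ι := by
  classical
  have hinj : Function.Injective (fun i => ((a i : ℤ) : ZMod n)) := by
    intro i j hij
    by_contra hne
    simp only at hij
    have h1 := ha (fun t => (if t = i then 1 else 0) - (if t = j then 1 else 0)) (by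
      have h2 : ∑ t, |(if t = i then (1 : ℤ) else 0) - (if t = j then 1 else 0)| ≤
          ∑ t, (|(if t = i then (1 : ℤ) else 0)| + |(if t = j then (1 : ℤ) else 0)|) :=
        Finset.sum_le_sum fun t _ => abs_sub _ _
      have h3 : ∑ t, (|(if t = i then (1 : ℤ) else 0)| + |(if t = j then (1 : ℤ) else 0)|) = 2 := by
        rw [Finset.sum_add_distrib]
        have h4 : ∀ s : ι, ∑ t, |(if t = s then (1 : ℤ) else 0)| = 1 := by
          intro s
          simp only [apply_ite abs, abs_one, abs_zero]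
          simp
        rw [h4, h4]
        norm_num
      have : (1 : ℤ) ≤ h := by exact_mod_cast hh
      omega) (by simp) (by
      have h5 : ∑ t, ((if t = i then (1 : ℤ) else 0) - (if t = j then 1 else 0)) * a t =
          a i - a j := by
        simp [sub_mul, Finset.sum_sub_distrib]
      rw [h5]
      exact (ZMod.intCast_zmod_eq_zero_iff_dvd _ n).1 (by push_cast; rw [hij, sub_self])) i
    simp [hne] at h1
  refine ⟨Finset.univ.image fun i => ((a i : ℤ) : ZMod n), ?_, ?_⟩
  swap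
  · rw [Finset.card_image_of_injective _ hinj, Finset.card_univ]
  intro l l' hl hl' e
  rw [Finset.sum_image fun _ _ _ _ h => hinj h] at hl hl'
  rw [Finset.sum_image fun _ _ _ _ h => hinj h, Finset.sum_image fun _ _ _ _ h => hinj h] at e
  set x : ι → ℤ := fun i => l ((a i : ℤ) : ZMod n) - l' ((a i : ℤ) : ZMod n) with hx
  have hpar : (2 : ℤ) ∣ ∑ i, x i := by
    have h1 : (2 : ℤ) ∣ ∑ i, (|l ((a i : ℤ) : ZMod n)| - l ((a i : ℤ) : ZMod n)) :=
      Finset.dvd_sum fun i _ => by
        rcases le_total 0 (l ((a i : ℤ) : ZMod n)) with h | h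
        · rw [abs_of_nonneg h, sub_self]; exact dvd_zero _
        · rw [abs_of_nonpos h]; exact ⟨-l ((a i : ℤ) : ZMod n), by ring⟩
    have h2 : (2 : ℤ) ∣ ∑ i, (|l' ((a i : ℤ) : ZMod n)| - l' ((a i : ℤ) : ZMod n)) :=
      Finset.dvd_sum fun i _ => by
        rcases le_total 0 (l' ((a i : ℤ) : ZMod n)) with h | h
        · rw [abs_of_nonneg h, sub_self]; exact dvd_zero _
        · rw [abs_of_nonpos h]; exact ⟨-l' ((a i : ℤ) : ZMod n), by ring⟩
    rw [Finset.sum_sub_distrib] at h1 h2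
    rw [hx, Finset.sum_sub_distrib]
    omega
  have hxs : ∑ i, |x i| ≤ 2 * h := by
    have h3 : ∑ i, |x i| ≤ ∑ i, (|l ((a i : ℤ) : ZMod n)| + |l' ((a i : ℤ) : ZMod n)|) :=
      Finset.sum_le_sum fun a _ => abs_sub _ _
    rw [Finset.sum_add_distrib] at h3
    omega
  have hval : (n : ℤ) ∣ ∑ i, x i * a i := by
    refine (ZMod.intCast_zmod_eq_zero_iff_dvd _ n).1 ?_
    rw [Int.cast_sum]
    have h4 : ∀ i ∈ (Finset.univ : Finset ι), ((x i * a i : ℤ) : ZMod n) =
        (l ((a i : ℤ) : ZMod n) : ZMod n) * ((a i : ℤ) : ZMod n) -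
        (l' ((a i : ℤ) : ZMod n) : ZMod n) * ((a i : ℤ) : ZMod n) := by
      intro i _
      simp only [hx]
      push_cast
      ring
    rw [Finset.sum_congr rfl h4, Finset.sum_sub_distrib, e, sub_self]
  have hfin := ha x hxs hpar hval
  intro b hb
  obtain ⟨i, hi, rfl⟩ := Finset.mem_image.1 hb
  have := hfin i
  simp only [hx] at this
  omega

theorem lower {n h k e q R : ℕ} [NeZero n] (hh : 1 ≤ h) (he : e ≤ 1) (hq : h ≤ 2 * q)
    (hR : R = 2 * h * (q + 1)) (hn : R ^ k * (2 * h) ^ e < n) :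
    ∃ A : Finset (ZMod n), IsBh n h A ∧ A.card = 2 * k + e := by
  classical
  have hR1 : 1 ≤ R := by rw [hR]; nlinarith
  let a : (Fin k × Bool) ⊕ Fin e → ℤ := fun t =>
    match t with
    | Sum.inl (i, false) => -((q : ℤ) * (R : ℤ) ^ (i : ℕ))
    | Sum.inl (i, true) => ((q : ℤ) + 1) * (R : ℤ) ^ (i : ℕ)
    | Sum.inr _ => (R : ℤ) ^ k
  obtain ⟨A, hA, hc⟩ := of_family (n := n) hh a (by
    intro x hx hpar hdvd
    obtain ⟨X0, hX0⟩ : ∃ X0 : ℕ → ℤ, ∀ i : Fin k, X0 i = x (Sum.inl (i, false)) :=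
      ⟨fun i => if hi : i < k then x (Sum.inl (⟨i, hi⟩, false)) else 0, fun i => by simp⟩
    obtain ⟨X1, hX1⟩ : ∃ X1 : ℕ → ℤ, ∀ i : Fin k, X1 i = x (Sum.inl (i, true)) :=
      ⟨fun i => if hi : i < k then x (Sum.inl (⟨i, hi⟩, true)) else 0, fun i => by simp⟩
    obtain ⟨Z, hZ⟩ : ∃ Z : ℤ, Z = ∑ j : Fin e, x (Sum.inr j) := ⟨_, rfl⟩
    have hZabs : |Z| = ∑ j : Fin e, |x (Sum.inr j)| := by
      rw [hZ]
      interval_cases e <;> simp
    have hZ0 : Z = 0 → ∀ j : Fin e, x (Sum.inr j) = 0 := by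
      intro h0 j
      have h1 : ∑ j : Fin e, |x (Sum.inr j)| = 0 := by rw [← hZabs, h0, abs_zero]
      exact abs_eq_zero.1
        ((Finset.sum_eq_zero_iff_of_nonneg fun i _ => abs_nonneg _).1 h1 j (Finset.mem_univ j))
    -- the three sums
    have s1 : ∑ i ∈ Finset.range k, (|X0 i| + |X1 i|) + |Z| ≤ 2 * h := by
      rw [Fintype.sum_sum_type, Fintype.sum_prod_type, ← hZabs] at hx
      rw [← Fin.sum_univ_eq_sum_range (fun i => |X0 i| + |X1 i|) k]
      refine le_trans (le_of_eq ?_) hx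
      congr 1
      refine Finset.sum_congr rfl fun i _ => ?_
      rw [Fintype.sum_bool, hX0, hX1, add_comm]
    have s2 : (2 : ℤ) ∣ ∑ i ∈ Finset.range k, (X0 i + X1 i) + Z := by
      rw [Fintype.sum_sum_type, Fintype.sum_prod_type, ← hZ] at hpar
      rw [← Fin.sum_univ_eq_sum_range (fun i => X0 i + X1 i) k]
      refine (dvd_of_eq rfl).trans (hpar.trans (dvd_of_eq ?_))
      congr 1
      refine Finset.sum_congr rfl fun i _ => ?_
      rw [Fintype.sum_bool, hX0, hX1, add_comm]
    have s3 : ∑ t, x t * a t =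
        ∑ i ∈ Finset.range k, (-(q * X0 i) + (q + 1) * X1 i) * (R : ℤ) ^ i + Z * (R : ℤ) ^ k := by
      rw [Fintype.sum_sum_type, Fintype.sum_prod_type]
      rw [← Fin.sum_univ_eq_sum_range
        (fun i => (-((q : ℤ) * X0 i) + (q + 1) * X1 i) * (R : ℤ) ^ i) k]
      congr 1
      · refine Finset.sum_congr rfl fun i _ => ?_
        rw [Fintype.sum_bool, hX0, hX1]
        simp only [a]
        ring
      · rw [hZ, Finset.sum_mul]
    rw [s3] at hdvd
    -- digits
    set y : ℕ → ℤ := fun i => if i < k then -(q * X0 i) + (q + 1) * X1 i else if i = k then Z else 0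
      with hy
    set M : ℕ → ℤ := fun i => if i < k then |X0 i| + |X1 i| else if i = k then |Z| else 0 with hM
    have yk : ∀ i ∈ Finset.range k, y i = -(q * X0 i) + (q + 1) * X1 i := by
      intro i hi
      simp only [hy, Finset.mem_range.1 hi, if_true]
    have Mk : ∀ i ∈ Finset.range k, M i = |X0 i| + |X1 i| := by
      intro i hi
      simp only [hM, Finset.mem_range.1 hi, if_true]
    have ykk : y k = Z := by simp [hy]
    have Mkk : M k = |Z| := by simp [hM]
    have hM0 : ∀ i, 0 ≤ M i := by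
      intro i
      simp only [hM]
      split_ifs <;> positivity
    have hRz : (R : ℤ) = 2 * h * (q + 1) := by rw [hR]; push_cast; ring
    have hh' : (1 : ℤ) ≤ h := by exact_mod_cast hh
    have hyM : ∀ i, |y i| ≤ (q + 1) * M i := by
      intro i
      simp only [hy, hM]
      split_ifs
      · have h1 : |-((q : ℤ) * X0 i) + (q + 1) * X1 i| ≤ |-((q : ℤ) * X0 i)| + |((q : ℤ) + 1) * X1 i| :=
          abs_add_le _ _
        rw [abs_neg, abs_mul, abs_mul, abs_of_nonneg (by positivity : (0 : ℤ) ≤ (q : ℤ)),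
          abs_of_nonneg (by positivity : (0 : ℤ) ≤ (q : ℤ) + 1)] at h1
        have := abs_nonneg (X0 i)
        nlinarith
      · have := abs_nonneg Z
        nlinarith
      · simp
    have hdig : ∀ i, 2 * (h : ℤ) * |y i| ≤ R * M i := by
      intro i
      rw [hRz]
      have := mul_le_mul_of_nonneg_left (hyM i) (by positivity : (0 : ℤ) ≤ 2 * h)
      linarith
    have hMsum : ∑ i ∈ Finset.range (k + 1), M i ≤ 2 * h := by
      rw [Finset.sum_range_succ, Mkk, Finset.sum_congr rfl Mk]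
      exact s1
    have hsum : ∑ i ∈ Finset.range k, (-(q * X0 i) + (q + 1) * X1 i) * (R : ℤ) ^ i +
        Z * (R : ℤ) ^ k = ∑ i ∈ Finset.range (k + 1), y i * (R : ℤ) ^ i := by
      rw [Finset.sum_range_succ, ykk]
      congr 1
      exact Finset.sum_congr rfl fun i hi => by rw [yk i hi]
    rw [hsum] at hdvd
    have hRpos : (1 : ℤ) ≤ R := by exact_mod_cast hR1
    have hsmall : |∑ i ∈ Finset.range (k + 1), y i * (R : ℤ) ^ i| < n := by
      have hnz : ((R ^ k * (2 * h) ^ e : ℕ) : ℤ) < n := by exact_mod_cast hn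
      push_cast at hnz
      -- `2 h |y_i| R^i ≤ R^k M_i` for `i < k`
      have t1 : ∀ i ∈ Finset.range k, 2 * (h : ℤ) * |y i * (R : ℤ) ^ i| ≤ (R : ℤ) ^ k * M i := by
        intro i hi
        have hik := Finset.mem_range.1 hi
        rw [abs_mul, abs_of_nonneg (by positivity : (0 : ℤ) ≤ (R : ℤ) ^ i)]
        have h1 := mul_le_mul_of_nonneg_right (hdig i) (by positivity : (0 : ℤ) ≤ (R : ℤ) ^ i)
        have h2 : (R : ℤ) ^ (i + 1) ≤ (R : ℤ) ^ k := pow_le_pow_right₀ hRpos (by omega)
        have h3 := mul_le_mul_of_nonneg_right h2 (hM0 i)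
        calc 2 * (h : ℤ) * (|y i| * (R : ℤ) ^ i) = 2 * (h : ℤ) * |y i| * (R : ℤ) ^ i := by ring
          _ ≤ R * M i * (R : ℤ) ^ i := h1
          _ = (R : ℤ) ^ (i + 1) * M i := by ring
          _ ≤ _ := h3
      have t2 : 2 * (h : ℤ) * ∑ i ∈ Finset.range k, |y i * (R : ℤ) ^ i| ≤
          (R : ℤ) ^ k * ∑ i ∈ Finset.range k, M i := by
        rw [Finset.mul_sum, Finset.mul_sum]
        exact Finset.sum_le_sum t1
      have t3 : |∑ i ∈ Finset.range (k + 1), y i * (R : ℤ) ^ i| ≤
          ∑ i ∈ Finset.range k, |y i * (R : ℤ) ^ i| + |Z| * (R : ℤ) ^ k := by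
        refine (Finset.abs_sum_le_sum_abs _ _).trans ?_
        rw [Finset.sum_range_succ, ykk, abs_mul Z,
          abs_of_nonneg (by positivity : (0 : ℤ) ≤ (R : ℤ) ^ k)]
      rw [Finset.sum_range_succ, Mkk] at hMsum
      have t4 : 0 ≤ ∑ i ∈ Finset.range k, |y i * (R : ℤ) ^ i| :=
        Finset.sum_nonneg fun i _ => abs_nonneg _
      have t5 : 0 ≤ ∑ i ∈ Finset.range k, M i := Finset.sum_nonneg fun i _ => hM0 i
      have hRk : (0 : ℤ) < (R : ℤ) ^ k := by positivity
      generalize (∑ i ∈ Finset.range k, |y i * (R : ℤ) ^ i|) = S at t2 t3 t4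
      generalize (∑ i ∈ Finset.range k, M i) = S' at t2 hMsum t5
      generalize (R : ℤ) ^ k = W at t2 t3 hRk hnz
      have hZn := abs_nonneg Z
      interval_cases e
      · have hz : |Z| = 0 := by rw [hZabs]; simp
        rw [hz] at t3 hMsum
        have h1 : 2 * (h : ℤ) * S ≤ 2 * h * W := by nlinarith
        have h2 : S ≤ W := le_of_mul_le_mul_left h1 (by positivity)
        simp only [pow_zero, mul_one] at hnz
        linarith
      · have h1 : 2 * (h : ℤ) * S ≤ 2 * h * (W * S') := by nlinarith [mul_nonneg hRk.le t5]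
        have h2 : S ≤ W * S' := le_of_mul_le_mul_left h1 (by positivity)
        simp only [pow_one] at hnz
        nlinarith
    have hzero := Int.eq_zero_of_abs_lt_dvd hdvd hsmall
    have hfin := digits R h hR1 hh (k + 1) y M hM0 hdig hMsum hzero
    have hZz : Z = 0 := by rw [← ykk]; exact hfin k (by omega)
    have hw : ∀ i ∈ Finset.range k, X0 i = (q + 1) * (X0 i - X1 i) ∧ X1 i = q * (X0 i - X1 i) := by
      intro i hi
      have h1 := hfin i (by have := Finset.mem_range.1 hi; omega)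
      rw [yk i hi] at h1
      constructor <;> linarith
    have hnorm : ∀ i ∈ Finset.range k, |X0 i| + |X1 i| = (2 * q + 1) * |X0 i - X1 i| := by
      intro i hi
      obtain ⟨h1, h2⟩ := hw i hi
      have h3 : |X0 i| = (q + 1) * |X0 i - X1 i| := by
        conv_lhs => rw [h1, abs_mul, abs_of_nonneg (by positivity : (0 : ℤ) ≤ (q : ℤ) + 1)]
      have h4 : |X1 i| = q * |X0 i - X1 i| := by
        conv_lhs => rw [h2, abs_mul, abs_of_nonneg (by positivity : (0 : ℤ) ≤ (q : ℤ))]
      rw [h3, h4]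
      ring
    rw [hZz, abs_zero, add_zero, Finset.sum_congr rfl hnorm, ← Finset.mul_sum] at s1
    have hpar2 : (2 : ℤ) ∣ ∑ i ∈ Finset.range k, (X0 i - X1 i) := by
      rw [hZz, add_zero] at s2
      have h1 : ∑ i ∈ Finset.range k, (X0 i + X1 i) =
          (2 * q + 1) * ∑ i ∈ Finset.range k, (X0 i - X1 i) := by
        rw [Finset.mul_sum]
        refine Finset.sum_congr rfl fun i hi => ?_
        obtain ⟨h1, h2⟩ := hw i hi
        linarith
      rw [h1] at s2
      have h2 : (2 * (q : ℤ) + 1) * ∑ i ∈ Finset.range k, (X0 i - X1 i) =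
          2 * (q * ∑ i ∈ Finset.range k, (X0 i - X1 i)) + ∑ i ∈ Finset.range k, (X0 i - X1 i) := by
        ring
      rw [h2] at s2
      omega
    have hpar3 := abs_parity (Finset.range k) (fun i => X0 i - X1 i) hpar2
    have hsum0 : ∑ i ∈ Finset.range k, |X0 i - X1 i| = 0 := by
      have hnn : 0 ≤ ∑ i ∈ Finset.range k, |X0 i - X1 i| :=
        Finset.sum_nonneg fun i _ => abs_nonneg _
      have hq' : (h : ℤ) ≤ 2 * q := by exact_mod_cast hq
      by_contra hne
      have h2 : 2 ≤ ∑ i ∈ Finset.range k, |X0 i - X1 i| := by omega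
      nlinarith
    have hw0 : ∀ i ∈ Finset.range k, X0 i = 0 ∧ X1 i = 0 := by
      intro i hi
      have h1 := (Finset.sum_eq_zero_iff_of_nonneg fun i _ => abs_nonneg _).1 hsum0 i hi
      obtain ⟨h2, h3⟩ := hw i hi
      rw [abs_eq_zero.1 h1, mul_zero] at h2 h3
      exact ⟨h2, h3⟩
    intro t
    rcases t with ⟨i, b⟩ | j
    · have h1 := hw0 i (Finset.mem_range.2 i.2)
      rw [hX0, hX1] at h1
      cases b
      · exact h1.1
      · exact h1.2
    · exact hZ0 hZz j)
  refine ⟨A, hA, ?_⟩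
  rw [hc]
  simp
  ring

/-- The modulus from which on the construction gives a `B_h` set over `ℤ` with `2 k + e`
elements. -/
def bound (h k e : ℕ) : ℕ := (2 * h * ((h + 1) / 2 + 1)) ^ k * (2 * h) ^ e

theorem result (n h : ℕ) (hn : 1 ≤ n) (hh : 1 ≤ h) :
    (∀ m : ℕ, 2 ≤ m → m ≤ sigma n h → 2 ^ m * h.choose m ≤ 2 * n) ∧
    (∀ k e : ℕ, e ≤ 1 → bound h k e < n → 2 * k + e ≤ sigma n h) ∧
    (∀ k e : ℕ, e ≤ 1 → 1 ≤ 2 * k + e → bound h k e < n →
      2 * n < 2 ^ (2 * k + e + 1) * h.choose (2 * k + e + 1) → sigma n h = 2 * k + e) := by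
  have : NeZero n := ⟨by omega⟩
  have key : ∀ m : ℕ, 2 ≤ m → m ≤ sigma n h → 2 ^ m * h.choose m ≤ 2 * n := by
    intro m hm hs
    obtain ⟨A, hA, hc⟩ := (le_sigma_iff h m hh).1 hs
    rw [← hc]
    exact size_bound A (by omega) hA
  have key2 : ∀ k e : ℕ, e ≤ 1 → bound h k e < n → 2 * k + e ≤ sigma n h := by
    intro k e he hb
    exact (le_sigma_iff h _ hh).2
      (lower (q := (h + 1) / 2) (R := 2 * h * ((h + 1) / 2 + 1)) hh he (by omega) rfl hb)
  refine ⟨key, key2, fun k e he hm h1 h2 => ?_⟩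
  have h3 := key2 k e he h1
  have h4 : ¬ 2 * k + e + 1 ≤ sigma n h := fun hc => by
    have := key (2 * k + e + 1) (by omega) hc
    omega
  omega

end Pool.Agent.Results.MP_f688e9_co.AllSizes
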