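import Pool.Agent.TH560.SB.Three

/-!
`B_h` sets over `ℤ` in cyclic groups: a new lower bound for the order of the group for all sizes,
the exact set of `(n, h)` with `σ_±(ℤ_n, h) ≥ 2`, and the value of `σ_±(ℤ_n, h)` for all `n` below
`(h+1)(2(h+1)²+1)/3`.
-/

set_option autoImplicit false

namespace Pool.Agent.Results.MP_f688e9_co.ExactThreshold

open Pool.Agent.TH560.SB

/-- (1) A `B_h` set over `ℤ` of size `m ≥ 2` in a finite abelian group `G` forces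
`|G| ≥ #{λ ∈ ℤ^m : |λ| ≤ h, |λ| ≡ h mod 2}`. (2) `σ_±(ℤ_n, h) ≥ 2` if and only if
`n ≥ (h+1)²` and, when `n` is even and `h` odd, `n ≥ (h+1)(h+2)`. (3) For
`n < (h+1)(2(h+1)²+1)/3` the value of `σ_±(ℤ_n, h)` is `2` under this condition and otherwise `0`
or `1` according to whether `n` divides `2h`. -/
theorem result :
    (∀ (G : Type) [AddCommGroup G] [Finite G] (A : Finset G) (h : ℕ), 2 ≤ A.card → IsB A h →
      Nat.card {f : A → ℤ // ∑ a, (f a).natAbs ≤ h ∧ (∑ a, (f a).natAbs) % 2 = h % 2} ≤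
        Nat.card G) ∧
    (∀ n h : ℕ, 1 ≤ n → 1 ≤ h → (2 ≤ sig n h ↔
      (h + 1) ^ 2 ≤ n ∧ (Even n → Odd h → (h + 1) * (h + 2) ≤ n))) ∧
    ∀ n h : ℕ, 1 ≤ n → 1 ≤ h → 3 * n < (h + 1) * (2 * (h + 1) ^ 2 + 1) →
      ((h + 1) ^ 2 ≤ n ∧ (Even n → Odd h → (h + 1) * (h + 2) ≤ n) → sig n h = 2) ∧
      (¬ ((h + 1) ^ 2 ≤ n ∧ (Even n → Odd h → (h + 1) * (h + 2) ≤ n)) →
        (n ∣ 2 * h → sig n h = 0) ∧ (¬ n ∣ 2 * h → sig n h = 1)) := by
  refine ⟨?_, ?_, ?_⟩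
  · intro G _ _ A h hA hB
    exact general (by rwa [Fintype.card_coe]) hB
  · intro n h hn hh
    have : NeZero n := ⟨by omega⟩
    exact two_le_sig hh
  · intro n h hn hh hlt
    have : NeZero n := ⟨by omega⟩
    have h2 := two_le_sig (n := n) hh
    have h1 := one_le_sig (n := n) hh
    have h3 := sig_le_two (n := n) hlt
    refine ⟨fun hT => ?_, fun hT => ⟨fun hd => ?_, fun hd => ?_⟩⟩
    · have := h2.mpr hT
      omega
    · have h4 : ¬ 1 ≤ sig n h := fun h5 => h1.mp h5 hd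
      omega
    · have h4 : ¬ 2 ≤ sig n h := fun h5 => hT (h2.mp h5)
      have h5 := h1.mpr hd
      omega

end Pool.Agent.Results.MP_f688e9_co.ExactThreshold
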